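import Mathlib
import Pool.Agent.H40GO.Indep

/-!
# Independence of the prime for subquotients of tensor constructions

Let `K` be a number field and `(V)` a compatible system of representations of its absolute Galois group, such as the
étale cohomology groups in a fixed degree of a smooth projective variety over `K`.  Let `(ρ)` be a compatible system of
irreducible representations, such as the one attached to a Bianchi newform.  If for one prime number and one embedding
of the coefficient field the member of `(ρ)` is a subquotient of a tensor product of copies of `V` and its dual, then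
this holds for all prime numbers and all embeddings.
-/

set_option autoImplicit false

namespace Pool.Agent.Results.MP_2e0e07_nt.IndependenceOfPrime

open NumberField IsDedekindDomain Filter Matrix

/-- The absolute Galois group of `K`, with the Krull topology. -/
abbrev GK (K : Type) [Field K] : Type := Gal(AlgebraicClosure K/K)

/-- `σ` is an (arithmetic) Frobenius element at the prime `v` of `K`: there is a maximal ideal `M` above `v` of the ring
of all algebraic integers with `σ x ≡ x ^ N(v)` modulo `M` for all `x`. -/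
def IsFrob {K : Type} [Field K] [NumberField K] (v : HeightOneSpectrum (𝓞 K)) (σ : GK K) : Prop :=
  ∃ M : Ideal (𝓞 (AlgebraicClosure K)), M.IsMaximal ∧
    M.comap (algebraMap (𝓞 K) (𝓞 (AlgebraicClosure K))) = v.asIdeal ∧
    ∀ x : 𝓞 (AlgebraicClosure K), σ • x - x ^ Ideal.absNorm v.asIdeal ∈ M

/-- A representation of the Galois group in `n × n` matrices over `F` has Frobenius polynomials `P`, through the
embedding `ι`: for all but finitely many primes `v`, all Frobenius elements at `v` have characteristic polynomial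
`ι (P v)`. -/
def HasFrobPoly {K : Type} [Field K] [NumberField K] {E F : Type} [Field E] [Field F]
    (P : HeightOneSpectrum (𝓞 K) → Polynomial E) (ι : E →+* F) {n : ℕ}
    (V : GK K →* Matrix (Fin n) (Fin n) F) : Prop :=
  {v | ¬ ∀ σ : GK K, IsFrob v σ → (V σ).charpoly = (P v).map ι}.Finite

/-- A representation in matrices is irreducible: its dimension is positive, and it has no stable subspace other than
zero and the whole space. -/
def IsIrreducible {Γ F : Type} [Group Γ] [Field F] {n : ℕ} (ρ : Γ →* Matrix (Fin n) (Fin n) F) : Prop :=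
  0 < n ∧ ∀ U : Submodule F (Fin n → F), (∀ g, ∀ u ∈ U, ρ g *ᵥ u ∈ U) → U = ⊥ ∨ U = ⊤

/-- `ρ` is isomorphic to a subquotient of `T`: there are a stable subspace `U` of `T` and an equivariant linear
surjection from `U` to `ρ`. -/
def IsSubquotient {Γ F I : Type} [Group Γ] [Field F] [Fintype I] [DecidableEq I] {n : ℕ}
    (T : Γ →* Matrix I I F) (ρ : Γ →* Matrix (Fin n) (Fin n) F) : Prop :=
  ∃ (U : Submodule F (I → F)) (π : U →ₗ[F] (Fin n → F)), Function.Surjective π ∧
    ∀ (g : Γ) (u : U), ∃ h : T g *ᵥ (u : I → F) ∈ U, π ⟨T g *ᵥ (u : I → F), h⟩ = ρ g *ᵥ π u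

/-- The tensor product of `a` copies of `V` and `b` copies of its dual, in the coordinates given by the standard
basis. -/
def tensorRep {Γ F : Type} [Group Γ] [Field F] {N : ℕ} (V : Γ →* Matrix (Fin N) (Fin N) F) (a b : ℕ) :
    Γ →* Matrix ((Fin a → Fin N) × (Fin b → Fin N)) ((Fin a → Fin N) × (Fin b → Fin N)) F where
  toFun g := Matrix.of fun p q => (∏ s, V g (p.1 s) (q.1 s)) * ∏ t, V g⁻¹ (q.2 t) (p.2 t)
  map_one' := by
    have h := (Pool.Agent.H40GO.tens V 1 a b 0).map_one
    rw [← h]
    ext p q
    simp [Pool.Agent.H40GO.tens]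
  map_mul' g g' := by
    have h := (Pool.Agent.H40GO.tens V 1 a b 0).map_mul g g'
    have h1 : ∀ x, Pool.Agent.H40GO.tens V 1 a b 0 x =
        Matrix.of fun p q => (∏ s, V x (p.1 s) (q.1 s)) * ∏ t, V x⁻¹ (q.2 t) (p.2 t) := by
      intro x
      ext p q
      simp [Pool.Agent.H40GO.tens]
    rw [h1, h1, h1] at h
    exact h

/-- **Theorem.** Let `P v`, `Q v` be polynomials over a field `E`, for each prime `v` of the number field `K`.  Suppose
that for one prime number `p` and one embedding of `E` in the algebraic closure of `ℚ_p` there are representations `V₀`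
and `ρ₀` of the absolute Galois group of `K` with Frobenius polynomials `P` and `Q` such that `ρ₀` is a subquotient of a
tensor product of copies of `V₀` and of its dual.  Then for all prime numbers `ℓ`, all embeddings of `E` in the algebraic
closure of `ℚ_ℓ` and all continuous representations `V` and `ρ` with Frobenius polynomials `P` and `Q`, where `ρ` is
irreducible, `ρ` is a subquotient of a tensor product of copies of `V` and of its dual. -/
theorem result (K : Type) [Field K] [NumberField K] (E : Type) [Field E]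
    (P Q : HeightOneSpectrum (𝓞 K) → Polynomial E)
    (p : ℕ) [Fact p.Prime] (ι₀ : E →+* PadicAlgCl p) (N₀ n₀ : ℕ)
    (V₀ : GK K →* Matrix (Fin N₀) (Fin N₀) (PadicAlgCl p)) (ρ₀ : GK K →* Matrix (Fin n₀) (Fin n₀) (PadicAlgCl p))
    (hP₀ : HasFrobPoly P ι₀ V₀) (hQ₀ : HasFrobPoly Q ι₀ ρ₀) (a₀ b₀ : ℕ)
    (h₀ : IsSubquotient (tensorRep V₀ a₀ b₀) ρ₀)
    (ℓ : ℕ) [Fact ℓ.Prime] (ι : E →+* PadicAlgCl ℓ) (N n : ℕ)
    (V : GK K →* Matrix (Fin N) (Fin N) (PadicAlgCl ℓ)) (ρ : GK K →* Matrix (Fin n) (Fin n) (PadicAlgCl ℓ))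
    (hV : Continuous V) (hρ : Continuous ρ) (hP : HasFrobPoly P ι V) (hQ : HasFrobPoly Q ι ρ)
    (hirr : IsIrreducible ρ) :
    ∃ a b : ℕ, IsSubquotient (tensorRep V a b) ρ := by
  have h1 : ∀ {F : Type} [Field F] {M : ℕ} (W : GK K →* Matrix (Fin M) (Fin M) F) (a b : ℕ),
      tensorRep W a b = Pool.Agent.H40GO.tens W 1 a b 0 := by
    intro F _ M W a b
    ext x p q
    simp [tensorRep, Pool.Agent.H40GO.tens]
  rw [h1] at h₀
  obtain ⟨a, b, hab⟩ := Pool.Agent.H40GO.main_indep P Q ι₀ N₀ n₀ V₀ ρ₀ hP₀ hQ₀ a₀ b₀ h₀ ι N n V ρ hV hρ hP hQ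
    ⟨⟨⟨0, hirr.1⟩⟩, hirr.2⟩
  refine ⟨a, b, ?_⟩
  rw [h1]
  exact hab

end Pool.Agent.Results.MP_2e0e07_nt.IndependenceOfPrime
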