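import Mathlib
import Pool.Agent.H40RT.Mult3

/-!
# Galois representations and multiplicative relations between Frobenius eigenvalues

Let `K` be a number field and let `V` run through a compatible system of representations of its absolute Galois group,
such as the étale cohomology groups of a smooth projective variety over `K` and their Tate twists, and `ρ` through a
compatible system of irreducible representations of dimension `n`, such as the one attached to a Bianchi newform, of
dimension two.  By Deligne, and for Bianchi newforms by the Ramanujan conjecture, the Frobenius eigenvalues of `V` and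
`ρ` are Weil numbers of bounded weights and denominators.

For each prime `v` let `G_v` be the multiplicative group generated by the Frobenius eigenvalues of `V` at `v` and the
roots of unity.  If `ρ` is a subquotient of a tensor product of copies of `V`, of its dual and of a representation with
finite image, then all Frobenius eigenvalues of `ρ` at `v` are in `G_v`, for all but finitely many `v`.  We prove the
converse, and a dichotomy: if `ρ` is not such a subquotient, then at all primes `v` which split completely in a certain
finite extension of `K`, outside a set of density zero, at most a third of the Frobenius eigenvalues of `ρ` are in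
`G_v`.  So for `n = 2` none of them is.  The exponents in the multiplicative relations are arbitrary.
-/

set_option autoImplicit false

namespace Pool.Agent.Results.MP_2e0e07_nt.MultiplicativeDependence

open NumberField IsDedekindDomain Filter Matrix

/-- The absolute Galois group of `K`, with the Krull topology. -/
abbrev GK (K : Type) [Field K] : Type := Gal(AlgebraicClosure K/K)

/-- `σ` is an (arithmetic) Frobenius element at the prime `v` of `K`: there is a maximal ideal `M` above `v` of the ring
of all algebraic integers with `σ x ≡ x ^ N(v)` modulo `M` for all `x`. -/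
def IsFrob {K : Type} [Field K] [NumberField K] (v : HeightOneSpectrum (𝓞 K)) (σ : GK K) : Prop :=
  ∃ M : Ideal (𝓞 (AlgebraicClosure K)), M.IsMaximal ∧
    M.comap (algebraMap (𝓞 K) (𝓞 (AlgebraicClosure K))) = v.asIdeal ∧
    ∀ x : 𝓞 (AlgebraicClosure K), σ • x - x ^ Ideal.absNorm v.asIdeal ∈ M

/-- A set `S` of primes of `K` has natural density zero: the proportion of the primes in `S` among the primes of norm at
most `k` tends to zero. -/
def HasDensityZero {K : Type} [Field K] [NumberField K] (S : Set (HeightOneSpectrum (𝓞 K))) : Prop :=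
  Tendsto (fun k : ℕ => (Nat.card {v : HeightOneSpectrum (𝓞 K) // Ideal.absNorm v.asIdeal ≤ k ∧ v ∈ S} : ℝ) /
    (Nat.card {v : HeightOneSpectrum (𝓞 K) // Ideal.absNorm v.asIdeal ≤ k} : ℝ)) atTop (nhds 0)

/-- A representation of the Galois group in `n × n` matrices over `F` has Frobenius polynomials `P`, through the
embedding `ι`: for all but finitely many primes `v`, all Frobenius elements at `v` have characteristic polynomial
`ι (P v)`. -/
def HasFrobPoly {K : Type} [Field K] [NumberField K] {E F : Type} [Field E] [Field F]
    (P : HeightOneSpectrum (𝓞 K) → Polynomial E) (ι : E →+* F) {n : ℕ}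
    (V : GK K →* Matrix (Fin n) (Fin n) F) : Prop :=
  {v | ¬ ∀ σ : GK K, IsFrob v σ → (V σ).charpoly = (P v).map ι}.Finite

/-- The roots of `P` in the algebraic closure of `E`, with multiplicities. -/
noncomputable def rootsOf {E : Type} [Field E] (P : Polynomial E) : Multiset (AlgebraicClosure E) :=
  P.aroots (AlgebraicClosure E)

/-- `z` is not zero, all its absolute values are of the form `q ^ (w / 2)` with an integer `w` between `-C` and `C`, and
`q ^ C z` and `q ^ C / z` are algebraic integers. -/
def IsWeilNumber {E : Type} [Field E] (C q : ℕ) (z : AlgebraicClosure E) : Prop :=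
  z ≠ 0 ∧ (∀ φ : AlgebraicClosure E →+* ℂ, ∃ w : ℤ, |w| ≤ C ∧ ‖φ z‖ ^ 2 = (q : ℝ) ^ w) ∧
    IsIntegral ℤ ((q : AlgebraicClosure E) ^ C * z) ∧ IsIntegral ℤ ((q : AlgebraicClosure E) ^ C * z⁻¹)

/-- For all but finitely many primes `v` the roots of `P v` are Weil numbers for the norm of `v`, with the same
constant `C` for all `v`. -/
def HasWeilRoots {K : Type} [Field K] [NumberField K] {E : Type} [Field E] (C : ℕ)
    (P : HeightOneSpectrum (𝓞 K) → Polynomial E) : Prop :=
  {v | ¬ ∀ z ∈ rootsOf (P v), IsWeilNumber C (Ideal.absNorm v.asIdeal) z}.Finite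

open scoped Classical in
/-- `z` is in the multiplicative group generated by the roots of `P` and the roots of unity: it is the product of a root
of unity `ζ` and of integral powers of the roots `x` of `P`. -/
def IsGenerated {E : Type} [Field E] (P : Polynomial E) (z : AlgebraicClosure E) : Prop :=
  ∃ (ζ : AlgebraicClosure E) (m : ℕ) (e : AlgebraicClosure E → ℤ), 0 < m ∧ ζ ^ m = 1 ∧
    z = ζ * ∏ x ∈ (rootsOf P).toFinset, x ^ e x

open scoped Classical in
/-- The number of the roots of `Q`, with multiplicities, in the multiplicative group generated by the roots of `P` and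
the roots of unity. -/
noncomputable def generatedCount {E : Type} [Field E] (P Q : Polynomial E) : ℕ :=
  Multiset.card ((rootsOf Q).filter (IsGenerated P))

/-- A representation in matrices is irreducible: its dimension is positive, and it has no stable subspace other than
zero and the whole space. -/
def IsIrreducible {Γ F : Type} [Group Γ] [Field F] {n : ℕ} (ρ : Γ →* Matrix (Fin n) (Fin n) F) : Prop :=
  0 < n ∧ ∀ U : Submodule F (Fin n → F), (∀ g, ∀ u ∈ U, ρ g *ᵥ u ∈ U) → U = ⊥ ∨ U = ⊤

/-- `ρ` is isomorphic to a subquotient of `T`: there are a stable subspace `U` of `T` and an equivariant linear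
surjection from `U` to `ρ`. -/
def IsSubquotient {Γ F I : Type} [Group Γ] [Field F] [Fintype I] [DecidableEq I] {n : ℕ}
    (T : Γ →* Matrix I I F) (ρ : Γ →* Matrix (Fin n) (Fin n) F) : Prop :=
  ∃ (U : Submodule F (I → F)) (π : U →ₗ[F] (Fin n → F)), Function.Surjective π ∧
    ∀ (g : Γ) (u : U), ∃ h : T g *ᵥ (u : I → F) ∈ U, π ⟨T g *ᵥ (u : I → F), h⟩ = ρ g *ᵥ π u

/-- The direct sum of `V` and `ρ`. -/
def directSum {Γ F : Type} [Group Γ] [Field F] {N n : ℕ} (V : Γ →* Matrix (Fin N) (Fin N) F)
    (ρ : Γ →* Matrix (Fin n) (Fin n) F) : Γ →* Matrix (Fin N ⊕ Fin n) (Fin N ⊕ Fin n) F where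
  toFun g := Matrix.fromBlocks (V g) 0 0 (ρ g)
  map_one' := by rw [map_one, map_one, Matrix.fromBlocks_one]
  map_mul' g g' := by
    rw [Matrix.fromBlocks_multiply, map_mul, map_mul]
    simp

/-- The tensor product of `a` copies of `V`, `b` copies of its dual and of `θ`, in the coordinates given by the standard
basis. -/
def tensorRep {Γ F : Type} [Group Γ] [Field F] {N d : ℕ} (V : Γ →* Matrix (Fin N) (Fin N) F) (a b : ℕ)
    (θ : Γ →* Matrix (Fin d) (Fin d) F) :
    Γ →* Matrix (((Fin a → Fin N) × (Fin b → Fin N)) × Fin d) (((Fin a → Fin N) × (Fin b → Fin N)) × Fin d) F where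
  toFun g := Matrix.of fun p q =>
    (∏ s, V g (p.1.1 s) (q.1.1 s)) * (∏ t, V g⁻¹ (q.1.2 t) (p.1.2 t)) * θ g p.2 q.2
  map_one' := by
    have h := (Pool.Agent.H40LT.tprod (Pool.Agent.H40GO.tens V 1 a b 0) θ).map_one
    rw [← h]
    ext p q
    simp [Pool.Agent.H40LT.tprod, Pool.Agent.H40GO.tens]
  map_mul' g g' := by
    have h := (Pool.Agent.H40LT.tprod (Pool.Agent.H40GO.tens V 1 a b 0) θ).map_mul g g'
    have h1 : ∀ x, Pool.Agent.H40LT.tprod (Pool.Agent.H40GO.tens V 1 a b 0) θ x =
        Matrix.of fun p q => (∏ s, V x (p.1.1 s) (q.1.1 s)) * (∏ t, V x⁻¹ (q.1.2 t) (p.1.2 t)) * θ x p.2 q.2 := by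
      intro x
      ext p q
      simp [Pool.Agent.H40LT.tprod, Pool.Agent.H40GO.tens]
    rw [h1, h1, h1] at h
    exact h

/-- The monodromy of `T` is connected: every polynomial in the entries of the matrices which vanishes on an open
subgroup vanishes on the whole group.  So the image of every open subgroup has the same Zariski closure. -/
def HasConnectedMonodromy {Γ F I : Type} [Group Γ] [TopologicalSpace Γ] [Field F] [Fintype I] [DecidableEq I]
    (T : Γ →* Matrix I I F) : Prop :=
  ∀ D : Subgroup Γ, IsOpen (D : Set Γ) → ∀ P : MvPolynomial (I × I) F,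
    (∀ x ∈ D, MvPolynomial.eval (fun q => T x q.1 q.2) P = 0) →
    ∀ x, MvPolynomial.eval (fun q => T x q.1 q.2) P = 0

/-- `ρ` comes from `V`: it is a subquotient of a tensor product of copies of `V`, of its dual and of a continuous
representation `θ` with finite image, which is trivial of dimension one if the monodromy of `V ⊕ ρ` is connected. -/
def ComesFrom {Γ F : Type} [Group Γ] [TopologicalSpace Γ] [Field F] [TopologicalSpace F] {N n : ℕ}
    (V : Γ →* Matrix (Fin N) (Fin N) F) (ρ : Γ →* Matrix (Fin n) (Fin n) F) : Prop :=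
  ∃ (a b d : ℕ) (θ : Γ →* Matrix (Fin d) (Fin d) F), Continuous θ ∧ (Set.range θ).Finite ∧
    (HasConnectedMonodromy (directSum V ρ) → d = 1 ∧ ∀ x, θ x = 1) ∧ IsSubquotient (tensorRep V a b θ) ρ

/-- **Theorem.** Let `P v` and `Q v` be polynomials over the number field `E`, for each prime `v` of the number field
`K`, whose roots are Weil numbers of bounded weights and denominators for all but finitely many `v`.  Then for all prime
numbers `ℓ`, all embeddings of `E` in the algebraic closure of `ℚ_ℓ` and all continuous representations `V` and `ρ` with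
Frobenius polynomials `P` and `Q`, where `ρ` is irreducible of dimension `n`:

1. `ρ` comes from `V` if and only if for all but finitely many `v` all roots of `Q v` are in the multiplicative group
   generated by the roots of `P v` and the roots of unity;
2. if `ρ` does not come from `V`, then at most `n / 3` of the roots of `Q v` are in this group, for all `v` outside a set
   of density zero with a Frobenius element in a certain open normal subgroup `U` of the Galois group, which is the
   whole group if the monodromy of `V ⊕ ρ` is connected. -/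
theorem result (K : Type) [Field K] [NumberField K] (E : Type) [Field E] [NumberField E] (C : ℕ)
    (P Q : HeightOneSpectrum (𝓞 K) → Polynomial E) (hPW : HasWeilRoots C P) (hQW : HasWeilRoots C Q)
    (ℓ : ℕ) [Fact ℓ.Prime] (ι : E →+* PadicAlgCl ℓ) (N n : ℕ)
    (V : GK K →* Matrix (Fin N) (Fin N) (PadicAlgCl ℓ)) (ρ : GK K →* Matrix (Fin n) (Fin n) (PadicAlgCl ℓ))
    (hV : Continuous V) (hρ : Continuous ρ) (hP : HasFrobPoly P ι V) (hQ : HasFrobPoly Q ι ρ)
    (hirr : IsIrreducible ρ) :
    (ComesFrom V ρ ↔ {v | ¬ ∀ z ∈ rootsOf (Q v), IsGenerated (P v) z}.Finite) ∧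
    ∃ U : Subgroup (GK K), U.Normal ∧ IsOpen (U : Set (GK K)) ∧
      (HasConnectedMonodromy (directSum V ρ) → U = ⊤) ∧
      (¬ ComesFrom V ρ → HasDensityZero {v | (∃ σ ∈ U, IsFrob v σ) ∧ n < 3 * generatedCount (P v) (Q v)}) := by
  have hT : ∀ (a b d : ℕ) (θ : GK K →* Matrix (Fin d) (Fin d) (PadicAlgCl ℓ)),
      tensorRep V a b θ = Pool.Agent.H40LT.tprod (Pool.Agent.H40GO.tens V 1 a b 0) θ := by
    intro a b d θ
    ext x p q
    simp [tensorRep, Pool.Agent.H40LT.tprod, Pool.Agent.H40GO.tens]
  have hR : Pool.Agent.H40LT.Rigid (Pool.Agent.H40LT.dsum V ρ) ⊤ ↔ HasConnectedMonodromy (directSum V ρ) := by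
    constructor
    · intro h D hD P hP x
      exact h D hD le_top P hP x trivial
    · intro h D hD _ P hP x _
      exact h D hD P hP x
  have hG : ComesFrom V ρ ↔ Pool.Agent.H40RT.Geo2 V ρ := by
    constructor
    · rintro ⟨a, b, d, θ, h1, h2, h3, h4⟩
      rw [hT] at h4
      exact ⟨a, b, d, θ, h1, h2, fun h => h3 (hR.mp h), h4⟩
    · rintro ⟨a, b, d, θ, h1, h2, h3, h4⟩
      refine ⟨a, b, d, θ, h1, h2, fun h => h3 (hR.mpr h), ?_⟩
      rw [hT]
      exact h4
  obtain ⟨h1, U, hU1, hU2, hU3, hU4⟩ := Pool.Agent.H40RT.mult_main C P Q hPW hQW ι N n V ρ hV hρ hP hQ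
    ⟨⟨⟨0, hirr.1⟩⟩, hirr.2⟩
  rw [hG]
  exact ⟨h1, U, hU1, hU2, fun h => hU3 (hR.mpr h), hU4⟩

end Pool.Agent.Results.MP_2e0e07_nt.MultiplicativeDependence
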