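import Mathlib
import Pool.Agent.H40RT.Dens

/-!
# Galois representations with Frobenius traces given by a rational function of point counts

Let `K` be a number field and let `V_1, ..., V_s` run through compatible systems of representations of its absolute
Galois group, such as the étale cohomology groups of a smooth projective variety `X` over `K` and their duals; the
numbers of points of `X` over the extensions of degree `k` of the residue fields are polynomials in the coefficients of
the Frobenius polynomials of the latter.  Let `ρ` run through a compatible system of irreducible representations of any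
dimension, such as the one attached to a Bianchi newform, of dimension two; then its Frobenius traces are the Hecke
eigenvalues.

If these traces are not zero and, at the primes of a set which is not of density zero, the values of a fixed rational
function at the coefficients of the Frobenius polynomials of the `V_j`, then for all primes `ℓ` and all embeddings of
the coefficient field `ρ` is a subquotient of a tensor product of copies of `V_1 ⊕ ... ⊕ V_s`, of its dual and of a
representation with finite image.

So if the Hecke eigenvalues of a Bianchi newform are given, at a set of primes of positive upper density at which they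
are not zero, by a rational expression in the numbers of points of a variety over `K`, then its Galois representations
arise from étale cohomology.
-/

set_option autoImplicit false

namespace Pool.Agent.Results.MP_2e0e07_nt.RationalTraces

open NumberField IsDedekindDomain Filter Matrix

/-- The absolute Galois group of `K`, with the Krull topology. -/
abbrev GK (K : Type) [Field K] : Type := Gal(AlgebraicClosure K/K)

/-- `σ` is an (arithmetic) Frobenius element at the prime `v` of `K`: there is a maximal ideal `M` above `v` of the ring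
of all algebraic integers with `σ x ≡ x ^ N(v)` modulo `M` for all `x`. -/
def IsFrob {K : Type} [Field K] [NumberField K] (v : HeightOneSpectrum (𝓞 K)) (σ : GK K) : Prop :=
  ∃ M : Ideal (𝓞 (AlgebraicClosure K)), M.IsMaximal ∧
    M.comap (algebraMap (𝓞 K) (𝓞 (AlgebraicClosure K))) = v.asIdeal ∧
    ∀ x : 𝓞 (AlgebraicClosure K), σ • x - x ^ Ideal.absNorm v.asIdeal ∈ M

/-- A set `S` of primes of `K` has natural density zero: the proportion of the primes in `S` among the primes of norm at
most `k` tends to zero. -/
def HasDensityZero {K : Type} [Field K] [NumberField K] (S : Set (HeightOneSpectrum (𝓞 K))) : Prop :=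
  Tendsto (fun k : ℕ => (Nat.card {v : HeightOneSpectrum (𝓞 K) // Ideal.absNorm v.asIdeal ≤ k ∧ v ∈ S} : ℝ) /
    (Nat.card {v : HeightOneSpectrum (𝓞 K) // Ideal.absNorm v.asIdeal ≤ k} : ℝ)) atTop (nhds 0)

/-- A representation of the Galois group in `n × n` matrices over `F` has Frobenius polynomials `P`, through the
embedding `ι`: for all but finitely many primes `v`, all Frobenius elements at `v` have characteristic polynomial
`ι (P v)`. -/
def HasFrobPoly {K : Type} [Field K] [NumberField K] {E F : Type} [Field E] [Field F]
    (P : HeightOneSpectrum (𝓞 K) → Polynomial E) (ι : E →+* F) {n : ℕ}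
    (V : GK K →* Matrix (Fin n) (Fin n) F) : Prop :=
  {v | ¬ ∀ σ : GK K, IsFrob v σ → (V σ).charpoly = (P v).map ι}.Finite

/-- The value of the polynomial `A` in the variables `y_(j, i)` at the coefficients of the polynomials `P j`: the
variable `y_(j, i)` is replaced by the coefficient of `X ^ i` in `P j`. -/
noncomputable def value {E : Type} [Field E] {s : ℕ} (A : MvPolynomial (Fin s × ℕ) E) (P : Fin s → Polynomial E) : E :=
  MvPolynomial.eval (fun p => (P p.1).coeff p.2) A

/-- The trace given by a characteristic polynomial of degree `n`: minus the coefficient of `X ^ (n - 1)`. -/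
noncomputable def traceOf {E : Type} [Field E] (Q : Polynomial E) : E := -Q.nextCoeff

/-- A representation in matrices is irreducible: its dimension is positive, and it has no stable subspace other than
zero and the whole space. -/
def IsIrreducible {Γ F : Type} [Group Γ] [Field F] {n : ℕ} (ρ : Γ →* Matrix (Fin n) (Fin n) F) : Prop :=
  0 < n ∧ ∀ U : Submodule F (Fin n → F), (∀ g, ∀ u ∈ U, ρ g *ᵥ u ∈ U) → U = ⊥ ∨ U = ⊤

/-- `ρ` is isomorphic to a subquotient of `T`: there are a stable subspace `U` of `T` and an equivariant linear
surjection from `U` to `ρ`. -/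
def IsSubquotient {Γ F I : Type} [Group Γ] [Field F] [Fintype I] [DecidableEq I] {n : ℕ}
    (T : Γ →* Matrix I I F) (ρ : Γ →* Matrix (Fin n) (Fin n) F) : Prop :=
  ∃ (U : Submodule F (I → F)) (π : U →ₗ[F] (Fin n → F)), Function.Surjective π ∧
    ∀ (g : Γ) (u : U), ∃ h : T g *ᵥ (u : I → F) ∈ U, π ⟨T g *ᵥ (u : I → F), h⟩ = ρ g *ᵥ π u

/-- The direct sum of the representations `V j`. -/
def sumRep {Γ F : Type} [Group Γ] [Field F] {s : ℕ} {N : Fin s → ℕ} (V : ∀ j, Γ →* Matrix (Fin (N j)) (Fin (N j)) F) :
    Γ →* Matrix (Σ j, Fin (N j)) (Σ j, Fin (N j)) F where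
  toFun g := Matrix.blockDiagonal' fun j => V j g
  map_one' := (Pool.Agent.H40LT.blk V).map_one
  map_mul' := (Pool.Agent.H40LT.blk V).map_mul

/-- The direct sum of `V` and `ρ`. -/
def directSum {Γ F I : Type} [Group Γ] [Field F] [Fintype I] [DecidableEq I] {n : ℕ} (V : Γ →* Matrix I I F)
    (ρ : Γ →* Matrix (Fin n) (Fin n) F) : Γ →* Matrix (I ⊕ Fin n) (I ⊕ Fin n) F where
  toFun g := Matrix.fromBlocks (V g) 0 0 (ρ g)
  map_one' := by rw [map_one, map_one, Matrix.fromBlocks_one]
  map_mul' g g' := by
    rw [Matrix.fromBlocks_multiply, map_mul, map_mul]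
    simp

/-- The tensor product of `a` copies of `V`, `b` copies of its dual and of `θ`, in the coordinates given by the standard
basis. -/
def tensorRep {Γ F I : Type} [Group Γ] [Field F] [Fintype I] [DecidableEq I] {d : ℕ} (V : Γ →* Matrix I I F) (a b : ℕ)
    (θ : Γ →* Matrix (Fin d) (Fin d) F) :
    Γ →* Matrix (((Fin a → I) × (Fin b → I)) × Fin d) (((Fin a → I) × (Fin b → I)) × Fin d) F where
  toFun g := Matrix.of fun p q =>
    (∏ s, V g (p.1.1 s) (q.1.1 s)) * (∏ t, V g⁻¹ (q.1.2 t) (p.1.2 t)) * θ g p.2 q.2
  map_one' := by
    have h := (Pool.Agent.H40LT.tprod (Pool.Agent.H40GO.tens V 1 a b 0) θ).map_one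
    rw [← h]
    ext p q
    simp [Pool.Agent.H40LT.tprod, Pool.Agent.H40GO.tens]
  map_mul' g g' := by
    have h := (Pool.Agent.H40LT.tprod (Pool.Agent.H40GO.tens V 1 a b 0) θ).map_mul g g'
    have h1 : ∀ x, Pool.Agent.H40LT.tprod (Pool.Agent.H40GO.tens V 1 a b 0) θ x =
        Matrix.of fun p q => (∏ s, V x (p.1.1 s) (q.1.1 s)) * (∏ t, V x⁻¹ (q.1.2 t) (p.1.2 t)) * θ x p.2 q.2 := by
      intro x
      ext p q
      simp [Pool.Agent.H40LT.tprod, Pool.Agent.H40GO.tens]
    rw [h1, h1, h1] at h
    exact h

/-- The monodromy of `T` is connected: every polynomial in the entries of the matrices which vanishes on an open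
subgroup vanishes on the whole group.  So the image of every open subgroup has the same Zariski closure. -/
def HasConnectedMonodromy {Γ F I : Type} [Group Γ] [TopologicalSpace Γ] [Field F] [Fintype I] [DecidableEq I]
    (T : Γ →* Matrix I I F) : Prop :=
  ∀ D : Subgroup Γ, IsOpen (D : Set Γ) → ∀ P : MvPolynomial (I × I) F,
    (∀ x ∈ D, MvPolynomial.eval (fun q => T x q.1 q.2) P = 0) →
    ∀ x, MvPolynomial.eval (fun q => T x q.1 q.2) P = 0

/-- **Theorem.** Let `P_1 v, ..., P_s v` and `Q v` be polynomials over a field `E`, for each prime `v` of the number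
field `K`, and let `A`, `B` be polynomials over `E` in the variables `y_(j, i)` such that for the primes `v` in a set
which is not of density zero, with `y_(j, i)` the coefficient of `X ^ i` in `P_j v`, the values `A(y)` and `B(y)` are
not zero and the trace given by `Q v` is `A(y) / B(y)`.  Then for all prime numbers `ℓ`, all embeddings of `E` in the
algebraic closure of `ℚ_ℓ` and all continuous representations `V_1, ..., V_s` and `ρ` with Frobenius polynomials
`P_1, ..., P_s` and `Q`, where `ρ` is irreducible, `ρ` is a subquotient of a tensor product of copies of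
`V_1 ⊕ ... ⊕ V_s`, of its dual and of a continuous representation with finite image, which is trivial of dimension one
if the monodromy of `V_1 ⊕ ... ⊕ V_s ⊕ ρ` is connected. -/
theorem result (K : Type) [Field K] [NumberField K] (E : Type) [Field E] (s : ℕ)
    (P : Fin s → HeightOneSpectrum (𝓞 K) → Polynomial E) (Q : HeightOneSpectrum (𝓞 K) → Polynomial E)
    (A B : MvPolynomial (Fin s × ℕ) E)
    (h : ¬ HasDensityZero {v | value A (fun j => P j v) ≠ 0 ∧ value B (fun j => P j v) ≠ 0 ∧
      traceOf (Q v) = value A (fun j => P j v) / value B (fun j => P j v)})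
    (ℓ : ℕ) [Fact ℓ.Prime] (ι : E →+* PadicAlgCl ℓ) (N : Fin s → ℕ) (n : ℕ)
    (V : ∀ j, GK K →* Matrix (Fin (N j)) (Fin (N j)) (PadicAlgCl ℓ))
    (ρ : GK K →* Matrix (Fin n) (Fin n) (PadicAlgCl ℓ))
    (hV : ∀ j, Continuous (V j)) (hρ : Continuous ρ) (hP : ∀ j, HasFrobPoly (P j) ι (V j)) (hQ : HasFrobPoly Q ι ρ)
    (hirr : IsIrreducible ρ) :
    ∃ (a b d : ℕ) (θ : GK K →* Matrix (Fin d) (Fin d) (PadicAlgCl ℓ)), Continuous θ ∧ (Set.range θ).Finite ∧
      (HasConnectedMonodromy (directSum (sumRep V) ρ) → d = 1 ∧ ∀ x, θ x = 1) ∧
      IsSubquotient (tensorRep (sumRep V) a b θ) ρ := by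
  obtain ⟨a, b, d, θ, h1, h2, h3, h4⟩ := Pool.Agent.H40RT.main P Q A B (fun h0 => h (h0.mono (by
    rintro v ⟨hA, hB, hAB⟩
    refine ⟨hA, hB, ?_⟩
    rw [eq_div_iff hB, mul_comm] at hAB
    exact hAB))) ι N n V ρ hV hρ hP hQ ⟨⟨⟨0, hirr.1⟩⟩, hirr.2⟩
  refine ⟨a, b, d, θ, h1, h2, fun hc => h3 ?_, ?_⟩
  · intro D hD _ P hP x _
    exact hc D hD P hP x
  · have hT : tensorRep (sumRep V) a b θ =
        Pool.Agent.H40LT.tprod (Pool.Agent.H40GO.tens (Pool.Agent.H40LT.blk V) 1 a b 0) θ := by
      ext x p q
      simp [tensorRep, sumRep, Pool.Agent.H40LT.tprod, Pool.Agent.H40GO.tens, Pool.Agent.H40LT.blk]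
    rw [hT]
    exact h4

end Pool.Agent.Results.MP_2e0e07_nt.RationalTraces
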