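import Mathlib
import Pool.Agent.H40GO.Main

/-!
# Galois representations sharing one Frobenius eigenvalue

Let `K` be a number field and let `V` run through a compatible system of representations of its absolute Galois group,
such as the étale cohomology group in a fixed degree of a smooth projective variety over `K`.  Let `ρ` run through a
compatible system of irreducible representations of dimension two, such as the one attached to a Bianchi newform.  If
at the primes of a set of upper density one the Frobenius elements have a common eigenvalue in the two systems, then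
for all primes `ℓ` and all embeddings of the coefficient field `ρ` is a subquotient of a tensor product of copies of
`V` and of its dual.
-/

set_option autoImplicit false

namespace Pool.Agent.Results.MP_2e0e07_nt.SharedEigenvalues

open NumberField IsDedekindDomain Filter Matrix

/-- The absolute Galois group of `K`, with the Krull topology. -/
abbrev GK (K : Type) [Field K] : Type := Gal(AlgebraicClosure K/K)

/-- `σ` is an (arithmetic) Frobenius element at the prime `v` of `K`: there is a maximal ideal `M` above `v` of the ring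
of all algebraic integers with `σ x ≡ x ^ N(v)` modulo `M` for all `x`. -/
def IsFrob {K : Type} [Field K] [NumberField K] (v : HeightOneSpectrum (𝓞 K)) (σ : GK K) : Prop :=
  ∃ M : Ideal (𝓞 (AlgebraicClosure K)), M.IsMaximal ∧
    M.comap (algebraMap (𝓞 K) (𝓞 (AlgebraicClosure K))) = v.asIdeal ∧
    ∀ x : 𝓞 (AlgebraicClosure K), σ • x - x ^ Ideal.absNorm v.asIdeal ∈ M

/-- A set `S` of primes of `K` has upper natural density one: for all `ε > 0` there are arbitrarily large `n` such that
at least a proportion `1 - ε` of the primes of norm at most `n` are in `S`. -/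
def UpperDensityOne {K : Type} [Field K] [NumberField K] (S : Set (HeightOneSpectrum (𝓞 K))) : Prop :=
  ∀ ε : ℝ, 0 < ε → ∃ᶠ n : ℕ in atTop,
    (1 - ε) * (Nat.card {v : HeightOneSpectrum (𝓞 K) // Ideal.absNorm v.asIdeal ≤ n} : ℝ) ≤
      (Nat.card {v : HeightOneSpectrum (𝓞 K) // Ideal.absNorm v.asIdeal ≤ n ∧ v ∈ S} : ℝ)

/-- A representation of the Galois group in `n × n` matrices over `F` has Frobenius polynomials `P`, through the
embedding `ι`: for all but finitely many primes `v`, all Frobenius elements at `v` have characteristic polynomial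
`ι (P v)`. -/
def HasFrobPoly {K : Type} [Field K] [NumberField K] {E F : Type} [Field E] [Field F]
    (P : HeightOneSpectrum (𝓞 K) → Polynomial E) (ι : E →+* F) {n : ℕ}
    (V : GK K →* Matrix (Fin n) (Fin n) F) : Prop :=
  {v | ¬ ∀ σ : GK K, IsFrob v σ → (V σ).charpoly = (P v).map ι}.Finite

/-- A representation in matrices is irreducible: its dimension is positive, and it has no stable subspace other than
zero and the whole space. -/
def IsIrreducible {Γ F : Type} [Group Γ] [Field F] {n : ℕ} (ρ : Γ →* Matrix (Fin n) (Fin n) F) : Prop :=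
  0 < n ∧ ∀ U : Submodule F (Fin n → F), (∀ g, ∀ u ∈ U, ρ g *ᵥ u ∈ U) → U = ⊥ ∨ U = ⊤

/-- `ρ` is isomorphic to a subquotient of `T`: there are a stable subspace `U` of `T` and an equivariant linear
surjection from `U` to `ρ`. -/
def IsSubquotient {Γ F I : Type} [Group Γ] [Field F] [Fintype I] [DecidableEq I] {n : ℕ}
    (T : Γ →* Matrix I I F) (ρ : Γ →* Matrix (Fin n) (Fin n) F) : Prop :=
  ∃ (U : Submodule F (I → F)) (π : U →ₗ[F] (Fin n → F)), Function.Surjective π ∧
    ∀ (g : Γ) (u : U), ∃ h : T g *ᵥ (u : I → F) ∈ U, π ⟨T g *ᵥ (u : I → F), h⟩ = ρ g *ᵥ π u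

/-- The tensor product of `a` copies of `V` and `b` copies of its dual, in the coordinates given by the standard
basis. -/
def tensorRep {Γ F : Type} [Group Γ] [Field F] {N : ℕ} (V : Γ →* Matrix (Fin N) (Fin N) F) (a b : ℕ) :
    Γ →* Matrix ((Fin a → Fin N) × (Fin b → Fin N)) ((Fin a → Fin N) × (Fin b → Fin N)) F where
  toFun g := Matrix.of fun p q => (∏ s, V g (p.1 s) (q.1 s)) * ∏ t, V g⁻¹ (q.2 t) (p.2 t)
  map_one' := by
    have h := (Pool.Agent.H40GO.tens V 1 a b 0).map_one
    rw [← h]
    ext p q
    simp [Pool.Agent.H40GO.tens]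
  map_mul' g g' := by
    have h := (Pool.Agent.H40GO.tens V 1 a b 0).map_mul g g'
    have h1 : ∀ x, Pool.Agent.H40GO.tens V 1 a b 0 x =
        Matrix.of fun p q => (∏ s, V x (p.1 s) (q.1 s)) * ∏ t, V x⁻¹ (q.2 t) (p.2 t) := by
      intro x
      ext p q
      simp [Pool.Agent.H40GO.tens]
    rw [h1, h1, h1] at h
    exact h

/-- **Theorem.** Let `P v`, `Q v` be polynomials over a field `E`, for each prime `v` of the number field `K`, such that
`P v` and `Q v` are not coprime for all `v` in a set of upper density one.  Then for all prime numbers `ℓ`, all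
embeddings of `E` in the algebraic closure of `ℚ_ℓ` and all continuous representations `V` and `ρ` with Frobenius
polynomials `P` and `Q`, where `ρ` is irreducible of dimension two, `ρ` is a subquotient of a tensor product of copies
of `V` and of its dual. -/
theorem result (K : Type) [Field K] [NumberField K] (E : Type) [Field E]
    (P Q : HeightOneSpectrum (𝓞 K) → Polynomial E)
    (h : UpperDensityOne {v | ¬ IsCoprime (P v) (Q v)})
    (ℓ : ℕ) [Fact ℓ.Prime] (ι : E →+* PadicAlgCl ℓ) (N : ℕ)
    (V : GK K →* Matrix (Fin N) (Fin N) (PadicAlgCl ℓ)) (ρ : GK K →* Matrix (Fin 2) (Fin 2) (PadicAlgCl ℓ))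
    (hV : Continuous V) (hρ : Continuous ρ) (hP : HasFrobPoly P ι V) (hQ : HasFrobPoly Q ι ρ)
    (hirr : IsIrreducible ρ) :
    ∃ a b : ℕ, IsSubquotient (tensorRep V a b) ρ := by
  obtain ⟨a, b, hab⟩ := Pool.Agent.H40GO.main_density P Q h ι N V ρ hV hρ hP hQ ⟨⟨⟨0, hirr.1⟩⟩, hirr.2⟩
  refine ⟨a, b, ?_⟩
  have h1 : tensorRep V a b = Pool.Agent.H40GO.tens V 1 a b 0 := by
    ext x p q
    simp [tensorRep, Pool.Agent.H40GO.tens]
  rw [h1]
  exact hab

end Pool.Agent.Results.MP_2e0e07_nt.SharedEigenvalues
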